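import Mathlib

/-!
# Lattice tilings of `ℤ^d` given by labellings
-/

set_option autoImplicit false

namespace Pool.Agent.KS6_67.LT

/-- the integer lattice of dimension `d` -/
abbrev Z (d : ℕ) := Fin d → ℤ

/-- the lattice translate `w + M` -/
def translate {d : ℕ} (w : Z d) (M : AddSubgroup (Z d)) : Set (Z d) := {x | x - w ∈ M}

/-- `v 1 + L 1, …, v n + L n` is a lattice tiling of `ℤ^d`: the `L i` are subgroups of finite index,
and the cosets `v i + L i` are pairwise disjoint and cover `ℤ^d`. -/
def IsTiling {n d : ℕ} (v : Fin n → Z d) (L : Fin n → AddSubgroup (Z d)) : Prop :=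
  (∀ i, (L i).index ≠ 0) ∧
  (∀ i j, i ≠ j → Disjoint (translate (v i) (L i)) (translate (v j) (L j))) ∧
  ∀ x, ∃ i, x ∈ translate (v i) (L i)

/-- The tiling splits: the index set is divided into `k ≥ 2` nonempty blocks, not all of them with
one element, such that the union of the tiles of every block is a single lattice translate. -/
def Splits {n d : ℕ} (v : Fin n → Z d) (L : Fin n → AddSubgroup (Z d)) : Prop :=
  ∃ k : ℕ, 2 ≤ k ∧ ∃ b : Fin n → Fin k, Function.Surjective b ∧ ¬ Function.Injective b ∧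
    ∀ j : Fin k, ∃ (w : Z d) (M : AddSubgroup (Z d)), M.index ≠ 0 ∧
      {x | ∃ i, b i = j ∧ x ∈ translate (v i) (L i)} = translate w M

/-- `ℤ^d` has a primitive lattice tiling with exactly `n` lattice translates. -/
def HasPrimitive (d n : ℕ) : Prop :=
  ∃ (v : Fin n → Z d) (L : Fin n → AddSubgroup (Z d)), IsTiling v L ∧ ¬ Splits v L

/-- closed under `x - y + z` -/
def TC {A : Type} [AddCommGroup A] (U : Set A) : Prop :=
  ∀ x ∈ U, ∀ y ∈ U, ∀ z ∈ U, x - y + z ∈ U

theorem tc_translate {d : ℕ} (w : Z d) (M : AddSubgroup (Z d)) : TC (translate w M) := by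
  intro x hx y hy z hz
  have : x - y + z - w = (x - w) - (y - w) + (z - w) := by abel
  show x - y + z - w ∈ M
  rw [this]
  exact M.add_mem (M.sub_mem hx hy) hz

/-- the difference group of a set closed under `x - y + z` -/
def dg {A : Type} [AddCommGroup A] (U : Set A) (hU : TC U) (v : A) (hv : v ∈ U) : AddSubgroup A where
  carrier := {h | v + h ∈ U}
  zero_mem' := by simpa using hv
  add_mem' := by
    intro a b ha hb
    have := hU _ ha _ hv _ hb
    have e : v + a - v + (v + b) = v + (a + b) := by abel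
    rw [e] at this; exact this
  neg_mem' := by
    intro a ha
    have := hU _ hv _ ha _ hv
    have e : v - (v + a) + v = v + -a := by abel
    rw [e] at this; exact this

theorem mem_dg {A : Type} [AddCommGroup A] (U : Set A) (hU : TC U) (v : A) (hv : v ∈ U) (h : A) :
    h ∈ dg U hU v hv ↔ v + h ∈ U := Iff.rfl

theorem index_ne_zero_of_dvd {d : ℕ} (Q : ℕ) (hQ : 0 < Q) (M : AddSubgroup (Z d))
    (h : ∀ x : Z d, (∀ k, (Q : ℤ) ∣ x k) → x ∈ M) : M.index ≠ 0 := by
  have : NeZero Q := ⟨hQ.ne'⟩
  let f : Z d →+ (Fin d → ZMod Q) :=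
    { toFun := fun x k => (x k : ZMod Q)
      map_zero' := by ext k; simp
      map_add' := by intro x y; ext k; simp }
  have h1 : f.ker ≤ M := by
    intro x hx
    apply h
    intro k
    have : f x k = 0 := by
      have : f x = 0 := hx
      rw [this]; rfl
    exact (ZMod.intCast_zmod_eq_zero_iff_dvd (x k) Q).1 this
  have h2 : f.ker.index ≠ 0 := by
    rw [AddSubgroup.index_ker]
    exact Nat.card_pos.ne'
  intro h0
  have := AddSubgroup.index_dvd_of_le h1
  rw [h0] at this
  exact h2 (Nat.eq_zero_of_zero_dvd this)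

/-- **Labellings.** A labelling of `ℤ^d` with `n` labels, periodic modulo `Q`, whose label classes are
closed under `x - y + z`, gives a lattice tiling with `n` tiles; it is primitive if a union of at
least two label classes which is closed under `x - y + z` is all of `ℤ^d`. -/
theorem of_label {α : Type} {n d : ℕ} (lab : Z d → α) (S : Finset α)
    (hS : ∀ a, a ∈ S ↔ ∃ x, lab x = a) (hcard : S.card = n) (Q : ℕ) (hQ : 0 < Q)
    (hper : ∀ x y : Z d, (∀ k, (Q : ℤ) ∣ y k - x k) → lab x = lab y)
    (hTC : ∀ a, TC {x | lab x = a})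
    (hprim : ∀ U : Set (Z d), TC U → (∀ x y, lab x = lab y → x ∈ U → y ∈ U) →
      (∃ x ∈ U, ∃ y ∈ U, lab x ≠ lab y) → ∀ z, z ∈ U) : HasPrimitive d n := by
  classical
  have e : Fin n ≃ S := (finCongr hcard.symm).trans S.equivFin.symm
  have hv : ∀ i : Fin n, ∃ x, lab x = (e i : α) := fun i => (hS _).1 (e i).2
  choose v hv using hv
  have htr : ∀ (i : Fin n), translate (v i) (dg {x | lab x = (e i : α)} (hTC _) (v i) (hv i)) =
      {x | lab x = (e i : α)} := by
    intro i
    ext x
    show (v i + (x - v i) ∈ {x | lab x = (e i : α)}) ↔ _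
    rw [add_sub_cancel]
  refine ⟨v, fun i => dg {x | lab x = (e i : α)} (hTC _) (v i) (hv i), ⟨?_, ?_, ?_⟩, ?_⟩
  · intro i
    apply index_ne_zero_of_dvd Q hQ
    intro x hx
    show lab (v i + x) = _
    rw [← hv i]
    symm
    apply hper
    intro k
    have : (v i + x) k - v i k = x k := by simp
    rw [this]; exact hx k
  · intro i j hij
    rw [htr, htr, Set.disjoint_left]
    intro x hx hx'
    apply hij
    apply e.injective
    apply Subtype.ext
    exact (hx.symm.trans hx')
  · intro x
    obtain ⟨i, hi⟩ := e.surjective ⟨lab x, (hS _).2 ⟨x, rfl⟩⟩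
    refine ⟨i, ?_⟩
    rw [htr]
    show lab x = (e i : α)
    rw [hi]
  · rintro ⟨k, hk, b, hb, hinj, hun⟩
    simp only [Function.Injective, not_forall] at hinj
    obtain ⟨i, i', hii, hne⟩ := hinj
    obtain ⟨w, M, hM, hU⟩ := hun (b i)
    have hmem : ∀ x, x ∈ translate w M ↔ ∃ i₁, b i₁ = b i ∧ lab x = (e i₁ : α) := by
      intro x
      rw [← hU]
      constructor
      · rintro ⟨i₁, h1, h2⟩
        rw [htr] at h2
        exact ⟨i₁, h1, h2⟩
      · rintro ⟨i₁, h1, h2⟩
        refine ⟨i₁, h1, ?_⟩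
        rw [htr]; exact h2
    have hall := hprim (translate w M) (tc_translate w M)
      (by
        intro x y hxy hx
        rw [hmem] at hx ⊢
        obtain ⟨i₁, h1, h2⟩ := hx
        exact ⟨i₁, h1, hxy ▸ h2⟩)
      ⟨v i, (hmem _).2 ⟨i, rfl, hv i⟩, v i', (hmem _).2 ⟨i', hii.symm, hv i'⟩, by
        rw [hv i, hv i']
        intro h
        exact hne (e.injective (Subtype.ext h))⟩
    have hconst : ∀ i₁, b i₁ = b i := by
      intro i₁
      obtain ⟨i₂, h1, h2⟩ := (hmem (v i₁)).1 (hall (v i₁))
      rw [hv i₁] at h2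
      have := e.injective (Subtype.ext h2)
      rw [this, h1]
    obtain ⟨i₁, h1⟩ := hb ⟨0, by omega⟩
    obtain ⟨i₂, h2⟩ := hb ⟨1, by omega⟩
    have := (hconst i₁).trans (hconst i₂).symm
    rw [h1, h2] at this
    exact absurd (congrArg Fin.val this) (by simp)

end Pool.Agent.KS6_67.LT
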