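import Pool.Agent.KS6_67.LT.Lay

/-!
# The four pairs of partitions of `ℤ/2 × ℤ/2 × ℤ/8`
-/

set_option autoImplicit false

namespace Pool.Agent.KS6_67.LT

/-- the labelling of `{0, ..., 31}` by the hexadecimal digits of a number -/
def dig (K n : ℕ) : ℕ := (K >>> (4 * n)) % 16

/-- the two labellings -/
def fn (K0 K1 : ℕ) (κ : Bool) (n : ℕ) : ℕ := dig (if κ then K0 else K1) n

/-- one step of the closure -/
def step (K : ℕ) (I : List ℕ) (w : ℕ × ℕ × ℕ) : List ℕ :=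
  if dig K w.1 ∈ I ∧ dig K w.2.1 ∈ I ∧ dig K w.2.2 ∈ I ∧ w.1 < 32 ∧ w.2.1 < 32 ∧ w.2.2 < 32 then
    (if dig K (op w.1 w.2.1 w.2.2) ∈ I then I else dig K (op w.1 w.2.1 w.2.2) :: I) else I

/-- the closure -/
def clo (K : ℕ) (W : List (ℕ × ℕ × ℕ)) (I : List ℕ) : List ℕ := W.foldl (step K) I

theorem clo_subset (K : ℕ) (A : Set ℕ) (hA : ∀ x y z, x < 32 → y < 32 → z < 32 → dig K x ∈ A →
    dig K y ∈ A → dig K z ∈ A → dig K (op x y z) ∈ A) (W : List (ℕ × ℕ × ℕ)) :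
    ∀ I : List ℕ, (∀ i ∈ I, i ∈ A) → ∀ i ∈ clo K W I, i ∈ A := by
  induction W with
  | nil => intro I hI i hi; exact hI i hi
  | cons w W ih =>
    intro I hI i hi
    refine ih (step K I w) ?_ i hi
    intro j hj
    unfold step at hj
    split_ifs at hj with h1 h2
    · exact hI j hj
    · rcases List.mem_cons.1 hj with rfl | hj
      · exact hA _ _ _ h1.2.2.2.1 h1.2.2.2.2.1 h1.2.2.2.2.2 (hI _ h1.1) (hI _ h1.2.1) (hI _ h1.2.2.1)
      · exact hI j hj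
    · exact hI j hj

theorem isCfg_of (c K0 K1 : ℕ) (W0 W1 : List (ℕ × ℕ × ℕ)) (h1 : 0 < c)
    (h2 : ∀ n < 32, dig K0 n < c + 2 ∧ dig K1 n < c + 2)
    (h3 : ∀ i < c + 2, (∃ n < 32, dig K0 n = i) ∧ (∃ n < 32, dig K1 n = i))
    (h4 : ∀ K ∈ [K0, K1], ∀ x < 32, ∀ y < 32, dig K x = dig K y → ∀ z < 32, dig K y = dig K z →
      dig K (op x y z) = dig K x)
    (h5 : ∀ n < 32, dig K0 n < c ∨ dig K1 n < c → dig K0 n = dig K1 n)
    (h6 : ∀ i < c + 2, ∀ j < c + 2, ¬ (c ≤ i ∧ c ≤ j) ∨ ∃ n < 32, ¬ (dig K0 n = i ↔ dig K1 n = j))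
    (h7 : ∀ i < c + 2, ∀ j < c + 2, i = j ∨ ∀ l < c + 2, l ∈ clo K0 (W0 ++ W0 ++ W0 ++ W0) [i, j])
    (h8 : ∀ i < c + 2, ∀ j < c + 2, i = j ∨ ∀ l < c + 2, l ∈ clo K1 (W1 ++ W1 ++ W1 ++ W1) [i, j]) :
    IsCfg c (fn K0 K1) where
  c_pos := h1
  lt := by
    intro κ n hn
    cases κ
    · exact (h2 n hn).2
    · exact (h2 n hn).1
  surj := by
    intro κ i hi
    cases κ
    · exact (h3 i hi).2
    · exact (h3 i hi).1
  tc := by
    intro κ x y z hx hy hz hxy hyz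
    cases κ
    · exact h4 K1 (by simp) x hx y hy hxy z hz hyz
    · exact h4 K0 (by simp) x hx y hy hxy z hz hyz
  agree := h5
  distinct := fun i j hi hi' hj hj' => (h6 i hi' j hj').resolve_left fun h => h ⟨hi, hj⟩
  prim := by
    intro κ I hI i j hi hj hij hiI hjI l hl
    cases κ
    · refine clo_subset K1 I hI (W1 ++ W1 ++ W1 ++ W1) [i, j] ?_ l ((h8 i hi j hj).resolve_left hij l hl)
      intro m hm
      simp only [List.mem_cons, List.not_mem_nil, or_false] at hm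
      rcases hm with rfl | rfl <;> assumption
    · refine clo_subset K0 I hI (W0 ++ W0 ++ W0 ++ W0) [i, j] ?_ l ((h7 i hi j hj).resolve_left hij l hl)
      intro m hm
      simp only [List.mem_cons, List.not_mem_nil, or_false] at hm
      rcases hm with rfl | rfl <;> assumption

theorem isCfg_A : IsCfg 2 (fn 0x132312001323120013231200132312 0x133212001332120013321200133212) := by
  refine isCfg_of _ _ _ 
    [(1, 5, 6), (1, 4, 5), (0, 3, 6), (2, 4, 6), (0, 1, 3), (0, 2, 4)]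
    [(1, 5, 6), (0, 1, 2), (0, 2, 6), (0, 2, 3), (3, 4, 6), (0, 2, 4), (1, 3, 4)]
    (by decide +kernel) (by decide +kernel) (by decide +kernel) (by decide +kernel)
    (by decide +kernel) (by decide +kernel) (by decide +kernel) (by decide +kernel)

theorem isCfg_B : IsCfg 4 (fn 0x21253454100534542125345410053454 0x21243554100435542124355410043554) := by
  refine isCfg_of _ _ _ 
    [(5, 6, 7), (1, 4, 5), (0, 1, 2), (0, 1, 12), (5, 6, 13), (3, 5, 3), (0, 2, 5), (7, 13,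
      14), (1, 4, 7), (0, 1, 4), (3, 7, 3), (0, 2, 7), (3, 11, 13), (0, 8, 13), (1, 4, 13), (0,
      2, 3), (1, 3, 4)]
    [(5, 6, 7), (0, 4, 5), (0, 1, 2), (0, 1, 12), (5, 6, 13), (3, 5, 3), (1, 5, 1), (7, 13,
      14), (0, 4, 7), (0, 4, 13), (0, 1, 4), (3, 7, 3), (1, 2, 7), (3, 11, 13), (1, 2, 13), (0,
      3, 4), (1, 2, 3)]
    (by decide +kernel) (by decide +kernel) (by decide +kernel) (by decide +kernel)
    (by decide +kernel) (by decide +kernel) (by decide +kernel) (by decide +kernel)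

theorem isCfg_C : IsCfg 5 (fn 0x33064240560521103306424056052110 0x33064240650521103306424065052110) := by
  refine isCfg_of _ _ _ 
    [(0, 1, 2), (0, 1, 5), (0, 1, 7), (0, 1, 8), (0, 2, 12), (0, 3, 5), (0, 3, 8), (0, 3, 12),
      (0, 5, 9), (0, 4, 5), (0, 5, 14), (0, 5, 6), (1, 2, 3), (1, 2, 14), (1, 2, 9), (1, 4, 1),
      (1, 2, 6), (3, 10, 14), (3, 4, 3), (3, 4, 6), (3, 9, 10), (3, 6, 3), (9, 11, 14), (6, 9,
      6), (4, 7, 14), (6, 12, 14), (4, 7, 9), (4, 6, 7)]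
    [(0, 1, 2), (0, 1, 5), (0, 1, 6), (0, 1, 8), (0, 2, 12), (0, 3, 5), (0, 3, 4), (0, 3, 8),
      (0, 3, 12), (0, 4, 5), (0, 5, 14), (0, 5, 9), (0, 5, 7), (1, 2, 3), (1, 2, 14), (1, 2,
      9), (1, 2, 4), (1, 2, 6), (1, 2, 7), (3, 10, 14), (3, 7, 10), (3, 4, 6), (3, 9, 10), (9,
      11, 14), (7, 9, 7), (4, 6, 14), (4, 6, 7), (7, 12, 14), (4, 9, 4)]
    (by decide +kernel) (by decide +kernel) (by decide +kernel) (by decide +kernel)
    (by decide +kernel) (by decide +kernel) (by decide +kernel) (by decide +kernel)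

theorem isCfg_D : IsCfg 7 (fn 0x33188747220887476168874750588747 0x33178847220788476167884750578847) := by
  refine isCfg_of _ _ _ 
    [(6, 14, 6), (6, 14, 21), (6, 13, 14), (5, 6, 7), (3, 4, 5), (0, 2, 3), (0, 2, 20), (6, 21,
      22), (0, 1, 12), (0, 1, 15), (6, 21, 30), (6, 13, 6), (1, 6, 1), (0, 2, 6), (3, 4, 6),
      (14, 22, 14), (14, 29, 30), (13, 14, 15), (3, 4, 13), (1, 9, 14), (5, 7, 14), (0, 2, 14),
      (3, 4, 14), (22, 30, 22), (1, 9, 22), (5, 7, 22), (13, 15, 22), (0, 2, 22), (3, 4, 22),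
      (1, 9, 30), (5, 7, 30), (13, 15, 30), (0, 2, 30), (3, 4, 30), (1, 5, 1), (1, 9, 13), (0,
      1, 2), (1, 3, 4), (5, 13, 5), (0, 5, 0), (0, 8, 13)]
    [(6, 14, 6), (6, 14, 21), (6, 13, 14), (5, 6, 7), (0, 4, 5), (0, 4, 6), (0, 2, 20), (6, 21,
      22), (0, 1, 12), (0, 1, 15), (6, 21, 30), (6, 13, 6), (1, 6, 1), (2, 3, 6), (14, 22, 14),
      (14, 29, 30), (13, 14, 15), (0, 4, 13), (0, 1, 4), (0, 1, 7), (1, 9, 14), (5, 7, 14), (0,
      4, 14), (2, 3, 14), (22, 30, 22), (1, 9, 22), (5, 7, 22), (13, 15, 22), (0, 4, 22), (0,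
      2, 3), (2, 10, 22), (1, 9, 30), (5, 7, 30), (13, 15, 30), (0, 4, 30), (2, 10, 30), (1, 5,
      1), (1, 9, 13), (1, 2, 3), (5, 13, 5), (2, 3, 5), (2, 3, 13)]
    (by decide +kernel) (by decide +kernel) (by decide +kernel) (by decide +kernel)
    (by decide +kernel) (by decide +kernel) (by decide +kernel) (by decide +kernel)

end Pool.Agent.KS6_67.LT
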