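import Pool.Agent.KS6_67.LT.Base

/-!
# Tilings with four tiles split in dimension at most two
-/

set_option autoImplicit false

open scoped Pointwise

namespace Pool.Agent.KS6_67.LT

/-- If all lattices are contained in a lattice of index `m` with `2 ≤ m < n` then the tiling
splits. -/
theorem splits_of_le {n d : ℕ} (v : Fin n → Z d) (L : Fin n → AddSubgroup (Z d)) (hT : IsTiling v L)
    (M : AddSubgroup (Z d)) (hM : ∀ i, L i ≤ M) (h2 : 2 ≤ M.index) (hn : M.index < n) :
    Splits v L := by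
  classical
  have hfi : M.FiniteIndex := ⟨by omega⟩
  have hfin : Finite (Z d ⧸ M) := AddSubgroup.finite_quotient_of_finiteIndex
  have e : (Z d ⧸ M) ≃ Fin M.index := Finite.equivFinOfCardEq rfl
  refine ⟨M.index, h2, fun i => e (QuotientAddGroup.mk (v i)), ?_, ?_, ?_⟩
  · intro j
    obtain ⟨x, hx⟩ := QuotientAddGroup.mk_surjective (e.symm j)
    obtain ⟨i, hi⟩ := hT.2.2 x
    refine ⟨i, ?_⟩
    have : (QuotientAddGroup.mk (v i) : Z d ⧸ M) = QuotientAddGroup.mk x := by
      rw [QuotientAddGroup.eq]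
      have := hM i hi
      rwa [neg_add_eq_sub]
    show e _ = j
    rw [this, hx, Equiv.apply_symm_apply]
  · intro hinj
    have := Fintype.card_le_of_injective _ hinj
    rw [Fintype.card_fin, Fintype.card_fin] at this
    omega
  · intro j
    obtain ⟨w, hw⟩ := QuotientAddGroup.mk_surjective (e.symm j)
    refine ⟨w, M, by omega, ?_⟩
    have key : ∀ x i, x ∈ translate (v i) (L i) → (e (QuotientAddGroup.mk (v i)) = j ↔ x - w ∈ M) := by
      intro x i hi
      have h1 : (QuotientAddGroup.mk (v i) : Z d ⧸ M) = QuotientAddGroup.mk x := by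
        rw [QuotientAddGroup.eq]
        have := hM i hi
        rwa [neg_add_eq_sub]
      rw [h1, ← Equiv.eq_symm_apply, ← hw, eq_comm, QuotientAddGroup.eq, neg_add_eq_sub]
    ext x
    constructor
    · rintro ⟨i, hi, hx⟩
      exact (key x i hx).1 hi
    · intro hx
      obtain ⟨i, hi⟩ := hT.2.2 x
      exact ⟨i, (key x i hi).2 hx, hi⟩

theorem sup_ne_top {n d : ℕ} (v : Fin n → Z d) (L : Fin n → AddSubgroup (Z d)) (hT : IsTiling v L)
    (i j : Fin n) (hij : i ≠ j) : L i ⊔ L j ≠ ⊤ := by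
  intro htop
  have h1 : v i - v j ∈ L i ⊔ L j := by rw [htop]; trivial
  obtain ⟨a, ha, b, hb, hab⟩ := AddSubgroup.mem_sup.1 h1
  refine Set.disjoint_left.1 (hT.2.1 i j hij) (?_ : v i - a ∈ translate (v i) (L i)) ?_
  · show v i - a - v i ∈ L i
    have : v i - a - v i = -a := by abel
    rw [this]; exact (L i).neg_mem ha
  · show v i - a - v j ∈ L j
    have : v i - a - v j = b := by rw [sub_right_comm, ← hab]; abel
    rw [this]; exact hb

/-- reduction modulo two -/
def red (d : ℕ) : Z d →+ (Fin d → ZMod 2) where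
  toFun x k := (x k : ZMod 2)
  map_zero' := by ext k; simp
  map_add' := by intro x y; ext k; simp

theorem exists_functional {d : ℕ} (L : AddSubgroup (Z d)) (h4 : ∀ a : Z d, (4 : ℕ) • a ∈ L)
    (hL : L ≠ ⊤) : ∃ φ : (Fin d → ZMod 2) →ₗ[ZMod 2] ZMod 2, φ ≠ 0 ∧ ∀ h ∈ L, φ (red d h) = 0 := by
  have hlt : AddSubgroup.toZModSubmodule 2 (L.map (red d)) < ⊤ := by
    rw [lt_top_iff_ne_top]
    intro htop
    apply hL
    have hdec : ∀ a : Z d, ∃ h ∈ L, ∃ b : Z d, a = h + (2 : ℕ) • b := by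
      intro a
      have : red d a ∈ AddSubgroup.toZModSubmodule 2 (L.map (red d)) := by rw [htop]; trivial
      obtain ⟨h, hh, he⟩ := this
      refine ⟨h, hh, fun k => (a k - h k) / 2, ?_⟩
      funext k
      have hk : (h k : ZMod 2) = (a k : ZMod 2) := congrFun he k
      have hk2 : (2 : ℤ) ∣ a k - h k := by
        exact (ZMod.intCast_eq_intCast_iff_dvd_sub (h k) (a k) 2).1 hk
      show a k = h k + (2 : ℕ) • ((a k - h k) / 2)
      rw [nsmul_eq_mul, Nat.cast_ofNat]
      omega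
    rw [eq_top_iff]
    intro a _
    obtain ⟨h, hh, b, rfl⟩ := hdec a
    obtain ⟨h', hh', b', rfl⟩ := hdec b
    have e : h + (2 : ℕ) • (h' + (2 : ℕ) • b') = h + (2 : ℕ) • h' + (4 : ℕ) • b' := by
      rw [smul_add, smul_smul, add_assoc]; rfl
    rw [e]
    exact L.add_mem (L.add_mem hh (L.nsmul_mem hh' 2)) (h4 b')
  obtain ⟨φ, hφ, hker⟩ := Submodule.exists_le_ker_of_lt_top _ hlt
  exact ⟨φ, hφ, fun h hh => hker ⟨h, hh, rfl⟩⟩

theorem functional_three {d : ℕ} (hd : d ≤ 2) (φ ψ χ : (Fin d → ZMod 2) →ₗ[ZMod 2] ZMod 2)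
    (h1 : φ ≠ 0) (h2 : ψ ≠ 0) (h3 : χ ≠ 0) (h : φ ≠ ψ) : χ = φ ∨ χ = ψ ∨ χ = φ + ψ := by
  let c : ((Fin d → ZMod 2) →ₗ[ZMod 2] ZMod 2) → (Fin d → ZMod 2) := fun f i => f (Pi.single i 1)
  have hc : ∀ f g, c f = c g → f = g := by
    intro f g hfg
    apply (Pi.basisFun (ZMod 2) (Fin d)).ext
    intro i
    rw [Pi.basisFun_apply]
    exact congrFun hfg i
  have hc0 : ∀ f, f ≠ 0 → c f ≠ 0 := fun f hf h0 => hf (hc f 0 (by rw [h0]; rfl))
  have key : ∀ u v w : Fin d → ZMod 2, u ≠ 0 → v ≠ 0 → w ≠ 0 → u ≠ v →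
      w = u ∨ w = v ∨ w = u + v := by
    interval_cases d <;> decide
  rcases key (c φ) (c ψ) (c χ) (hc0 _ h1) (hc0 _ h2) (hc0 _ h3) (fun hh => h (hc _ _ hh)) with
    h | h | h
  · exact Or.inl (hc _ _ h)
  · exact Or.inr (Or.inl (hc _ _ h))
  · exact Or.inr (Or.inr (hc _ _ h))

theorem four_splits {d : ℕ} (hd : d ≤ 2) (v : Fin 4 → Z d) (L : Fin 4 → AddSubgroup (Z d))
    (hT : IsTiling v L) : Splits v L := by
  classical
  -- no lattice is everything
  have hne1 : ∀ i, (L i).index ≠ 1 := by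
    intro i h1
    rw [AddSubgroup.index_eq_one] at h1
    obtain ⟨j, hj⟩ : ∃ j : Fin 4, i ≠ j := ⟨i + 1, by fin_cases i <;> decide⟩
    apply sup_ne_top v L hT i j hj
    rw [h1, top_sup_eq]
  by_cases hp : ∃ i, (L i).index = 2 ∨ (L i).index = 3
  · obtain ⟨i, hi⟩ := hp
    apply splits_of_le v L hT (L i) _ (by omega) (by omega)
    intro j
    by_cases hij : i = j
    · rw [hij]
    · have h1 := AddSubgroup.relIndex_mul_index (le_sup_left : L i ≤ L i ⊔ L j)
      have h2 : (L i ⊔ L j).index ≠ 1 := by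
        rw [Ne, AddSubgroup.index_eq_one]
        exact sup_ne_top v L hT i j hij
      have h3 : (L i).relIndex (L i ⊔ L j) = 1 := by
        have hdvd : (L i ⊔ L j).index ∣ (L i).index := ⟨_, by rw [mul_comm]; exact h1.symm⟩
        have hprime : (L i).index.Prime := by rcases hi with h | h <;> rw [h] <;> norm_num
        rcases (Nat.dvd_prime hprime).1 hdvd with h | h
        · exact absurd h h2
        · rw [h] at h1
          have : 0 < (L i).index := hprime.pos
          exact Nat.eq_of_mul_eq_mul_right this (by rw [h1, one_mul])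
      rw [AddSubgroup.relIndex_eq_one] at h3
      exact le_trans le_sup_right h3
  · push Not at hp
    have h4 : ∀ i, 4 ≤ (L i).index := by
      intro i
      have := hp i
      have := hne1 i
      have := hT.1 i
      omega
    -- all indices are four
    have hcov : ⋃ i ∈ (Finset.univ : Finset (Fin 4)), (v i) +ᵥ ((L i : Set (Z d))) = Set.univ := by
      rw [Set.eq_univ_iff_forall]
      intro x
      obtain ⟨i, hi⟩ := hT.2.2 x
      refine Set.mem_iUnion₂.2 ⟨i, Finset.mem_univ _, ?_⟩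
      rw [Set.mem_vadd_set_iff_neg_vadd_mem]
      show -(v i) + x ∈ L i
      rw [neg_add_eq_sub]; exact hi
    have hsum := AddSubgroup.one_le_sum_inv_index_of_leftCoset_cover hcov
    have hi4 : ∀ i, (L i).index = 4 := by
      have hle : ∀ i, ((L i).index : ℚ)⁻¹ ≤ 1 / 4 := by
        intro i
        rw [one_div]
        apply inv_anti₀ (by norm_num)
        exact_mod_cast h4 i
      rw [Fin.sum_univ_four] at hsum
      have hge : ∀ i, (1 : ℚ) / 4 ≤ ((L i).index : ℚ)⁻¹ := by
        intro i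
        have a0 := hle 0
        have a1 := hle 1
        have a2 := hle 2
        have a3 := hle 3
        fin_cases i
        · show (1 : ℚ) / 4 ≤ ((L 0).index : ℚ)⁻¹
          linarith
        · show (1 : ℚ) / 4 ≤ ((L 1).index : ℚ)⁻¹
          linarith
        · show (1 : ℚ) / 4 ≤ ((L 2).index : ℚ)⁻¹
          linarith
        · show (1 : ℚ) / 4 ≤ ((L 3).index : ℚ)⁻¹
          linarith
      intro i
      have h5 : ((L i).index : ℚ)⁻¹ = (4 : ℚ)⁻¹ := by
        have := le_antisymm (hle i) (hge i)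
        rw [this]; norm_num
      have h6 := inv_injective h5
      exact_mod_cast h6
    have hmem : ∀ i (a : Z d), (4 : ℕ) • a ∈ L i := by
      intro i a
      rw [← hi4 i]
      exact AddSubgroup.nsmul_index_mem (L i) a
    -- common functionals
    have hpair : ∀ i j, i ≠ j → ∃ φ : (Fin d → ZMod 2) →ₗ[ZMod 2] ZMod 2, φ ≠ 0 ∧
        (∀ h ∈ L i, φ (red d h) = 0) ∧ ∀ h ∈ L j, φ (red d h) = 0 := by
      intro i j hij
      obtain ⟨φ, h1, h2⟩ := exists_functional (L i ⊔ L j)
        (fun a => (le_sup_left : L i ≤ _) (hmem i a)) (sup_ne_top v L hT i j hij)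
      exact ⟨φ, h1, fun h hh => h2 h ((le_sup_left : L i ≤ _) hh),
        fun h hh => h2 h ((le_sup_right : L j ≤ _) hh)⟩
    have hone : ∀ i, ∃ φ : (Fin d → ZMod 2) →ₗ[ZMod 2] ZMod 2, φ ≠ 0 ∧
        ∀ h ∈ L i, φ (red d h) = 0 := by
      intro i
      obtain ⟨φ, h1, h2, _⟩ := hpair i (i + 1) (by fin_cases i <;> decide)
      exact ⟨φ, h1, h2⟩
    have hall : ∃ φ : (Fin d → ZMod 2) →ₗ[ZMod 2] ZMod 2, φ ≠ 0 ∧
        ∀ i, ∀ h ∈ L i, φ (red d h) = 0 := by
      by_cases hs : ∃ i, ∃ φ : (Fin d → ZMod 2) →ₗ[ZMod 2] ZMod 2,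
          (φ ≠ 0 ∧ ∀ h ∈ L i, φ (red d h) = 0) ∧
          ∀ ψ : (Fin d → ZMod 2) →ₗ[ZMod 2] ZMod 2, ψ ≠ 0 → (∀ h ∈ L i, ψ (red d h) = 0) → ψ = φ
      · obtain ⟨i, φ, ⟨h1, h2⟩, h3⟩ := hs
        refine ⟨φ, h1, fun j => ?_⟩
        by_cases hij : i = j
        · rw [← hij]; exact h2
        · obtain ⟨ψ, k1, k2, k3⟩ := hpair i j hij
          rw [← h3 ψ k1 k2]; exact k3
      · push Not at hs
        have hev : ∀ i (χ : (Fin d → ZMod 2) →ₗ[ZMod 2] ZMod 2), χ ≠ 0 →
            ∀ h ∈ L i, χ (red d h) = 0 := by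
          intro i χ hχ
          obtain ⟨φ, h1, h2⟩ := hone i
          obtain ⟨ψ, k1, k2, k3⟩ := hs i φ ⟨h1, h2⟩
          rcases functional_three hd φ ψ χ h1 k1 hχ (fun h => k3 h.symm) with h | h | h
          · rw [h]; exact h2
          · rw [h]; exact k2
          · intro x hx
            rw [h, LinearMap.add_apply, h2 x hx, k2 x hx, add_zero]
        obtain ⟨φ, h1, _⟩ := hone 0
        exact ⟨φ, h1, fun i => hev i φ h1⟩
    obtain ⟨φ, hφ, hφL⟩ := hall
    let f : Z d →+ ZMod 2 := φ.toAddMonoidHom.comp (red d)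
    have hf : ∀ x, f x = φ (red d x) := fun x => rfl
    have hi : f.ker.index = Nat.card f.range := AddSubgroup.index_ker f
    have hle : Nat.card f.range ≤ 2 := by
      have := Nat.card_le_card_of_injective (fun x : f.range => (x : ZMod 2)) Subtype.val_injective
      rwa [Nat.card_zmod] at this
    have hpos : 0 < Nat.card f.range := Nat.card_pos
    have hnt : f.ker.index ≠ 1 := by
      rw [Ne, AddSubgroup.index_eq_one]
      intro htop
      apply hφ
      apply (Pi.basisFun (ZMod 2) (Fin d)).ext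
      intro i
      have h1 : (Pi.single i 1 : Z d) ∈ f.ker := by rw [htop]; trivial
      have h2 : f (Pi.single i 1) = 0 := h1
      rw [hf] at h2
      have h3 : red d (Pi.single i 1) = Pi.basisFun (ZMod 2) (Fin d) i := by
        rw [Pi.basisFun_apply]
        funext k
        show (((Pi.single i 1 : Z d) k : ℤ) : ZMod 2) = _
        by_cases hk : k = i
        · subst hk; simp
        · simp [Pi.single_eq_of_ne hk]
      rw [h3] at h2
      rw [h2]; rfl
    exact splits_of_le v L hT f.ker (fun i h hh => hφL i h hh) (by omega) (by omega)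

end Pool.Agent.KS6_67.LT
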