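import Mathlib

/-!
# A partition of `ℤ` into `2 k + 1` residue classes
-/

set_option autoImplicit false

namespace Pool.Agent.KS6_67.LT

/-- The level of an integer: `2 i` if `t ≡ 3^i mod 3^(i+1)` and `2 i + 1` if `t ≡ 2 * 3^i mod 3^(i+1)`
(`i < k`), and `2 k` if `3^k` divides `t`. -/
def lev : ℕ → ℤ → ℕ
  | 0, _ => 0
  | k + 1, t => if t % 3 = 1 then 0 else if t % 3 = 2 then 1 else lev k (t / 3) + 2

theorem lev_lt (k : ℕ) (t : ℤ) : lev k t < 2 * k + 1 := by
  induction k generalizing t with
  | zero => simp [lev]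
  | succ k ih =>
    unfold lev
    have := ih (t / 3)
    split_ifs <;> omega

theorem lev_per (k : ℕ) (t s : ℤ) (h : (3 ^ k : ℤ) ∣ s - t) : lev k t = lev k s := by
  induction k generalizing t s with
  | zero => simp [lev]
  | succ k ih =>
    obtain ⟨q, hq⟩ := h
    have hs : s = t + 3 * (3 ^ k * q) := by rw [pow_succ] at hq; linarith
    unfold lev
    have h1 : s % 3 = t % 3 := by omega
    rw [h1]
    split_ifs with h2 h3
    · rfl
    · rfl
    · rw [ih (t / 3) (s / 3) ⟨q, by omega⟩]

theorem lev_cases (k : ℕ) (t : ℤ) : (t % 3 = 1 ∧ lev (k + 1) t = 0) ∨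
    (t % 3 = 2 ∧ lev (k + 1) t = 1) ∨ (t % 3 = 0 ∧ lev (k + 1) t = lev k (t / 3) + 2) := by
  have : t % 3 = 0 ∨ t % 3 = 1 ∨ t % 3 = 2 := by omega
  rcases this with h | h | h
  · right; right; exact ⟨h, by simp [lev, h]⟩
  · left; exact ⟨h, by simp [lev, h]⟩
  · right; left; exact ⟨h, by simp [lev, h]⟩

theorem lev_tc (k : ℕ) (x y z : ℤ) (h1 : lev k x = lev k y) (h2 : lev k y = lev k z) :
    lev k (x - y + z) = lev k x := by
  induction k generalizing x y z with
  | zero => simp [lev]
  | succ k ih =>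
    have hx := lev_cases k x
    have hy := lev_cases k y
    have hz := lev_cases k z
    have hw := lev_cases k (x - y + z)
    by_cases h0 : x % 3 = 0 ∧ y % 3 = 0 ∧ z % 3 = 0
    · have := ih (x / 3) (y / 3) (z / 3) (by omega) (by omega)
      have e : (x - y + z) / 3 = x / 3 - y / 3 + z / 3 := by omega
      rw [e] at hw
      omega
    · omega

theorem lev_par (k : ℕ) (x y : ℤ) (h : lev k x ≠ lev k y) (hp : lev k x % 2 = lev k y % 2) :
    lev k (y - x + y) % 2 ≠ lev k x % 2 ∨ lev k (x - y + x) % 2 ≠ lev k x % 2 := by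
  induction k generalizing x y with
  | zero => simp [lev] at h
  | succ k ih =>
    have hxr : x % 3 = 0 ∨ x % 3 = 1 ∨ x % 3 = 2 := by omega
    have hyr : y % 3 = 0 ∨ y % 3 = 1 ∨ y % 3 = 2 := by omega
    have l1 : ∀ t : ℤ, t % 3 = 1 → lev (k + 1) t = 0 := fun t ht => by simp [lev, ht]
    have l2 : ∀ t : ℤ, t % 3 = 2 → lev (k + 1) t = 1 := fun t ht => by simp [lev, ht]
    have l3 : ∀ t : ℤ, t % 3 = 0 → lev (k + 1) t = lev k (t / 3) + 2 := fun t ht => by simp [lev, ht]
    rcases hxr with hx | hx | hx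
    · rcases hyr with hy | hy | hy
      · rw [l3 x hx, l3 y hy] at h hp
        rw [l3 _ (by omega : (y - x + y) % 3 = 0), l3 _ (by omega : (x - y + x) % 3 = 0), l3 x hx]
        have := ih (x / 3) (y / 3) (by omega) (by omega)
        have e1 : (y - x + y) / 3 = y / 3 - x / 3 + y / 3 := by omega
        have e2 : (x - y + x) / 3 = x / 3 - y / 3 + x / 3 := by omega
        rw [e1, e2]
        omega
      · right
        rw [l1 y hy] at hp
        rw [l2 _ (by omega : (x - y + x) % 3 = 2), hp]
        omega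
      · right
        rw [l2 y hy] at hp
        rw [l1 _ (by omega : (x - y + x) % 3 = 1), hp]
        omega
    · rcases hyr with hy | hy | hy
      · left
        rw [l2 _ (by omega : (y - x + y) % 3 = 2), l1 x hx]
        omega
      · rw [l1 x hx, l1 y hy] at h; omega
      · rw [l1 x hx, l2 y hy] at hp; omega
    · rcases hyr with hy | hy | hy
      · left
        rw [l1 _ (by omega : (y - x + y) % 3 = 1), l2 x hx]
        omega
      · rw [l2 x hx, l1 y hy] at hp; omega
      · rw [l2 x hx, l2 y hy] at h; omega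

theorem lev_surj (k : ℕ) (l : ℕ) (hl : l < 2 * k + 1) : ∃ t : ℤ, lev k t = l := by
  induction k generalizing l with
  | zero => exact ⟨0, by simp [lev]; omega⟩
  | succ k ih =>
    rcases Nat.lt_or_ge l 1 with h0 | h0
    · exact ⟨1, by simp [lev]; omega⟩
    · rcases Nat.lt_or_ge l 2 with h1 | h1
      · exact ⟨2, by simp [lev]; omega⟩
      · obtain ⟨t, ht⟩ := ih (l - 2) (by omega)
        refine ⟨3 * t, ?_⟩
        unfold lev
        rw [if_neg (by omega), if_neg (by omega)]
        have : 3 * t / 3 = t := by omega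
        rw [this, ht]; omega

end Pool.Agent.KS6_67.LT
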