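import Pool.Agent.KS6_67.LT.Base
import Pool.Agent.KS6_67.LT.Lev

/-!
# Layered tilings

The group `G = ℤ/2 × ℤ/2 × ℤ/8` is written as `{0, ..., 31}`.  Two partitions of `G` into cosets
which differ in two parts only are put together to partitions of `G × ℤ/3^k`.
-/

set_option autoImplicit false

namespace Pool.Agent.KS6_67.LT

/-- `x - y + z` in `ℤ/2 × ℤ/2 × ℤ/8`, elements written as `a + 2 b + 4 c` -/
def op (x y z : ℕ) : ℕ :=
  (x % 2 + y % 2 + z % 2) % 2 + 2 * ((x / 2 % 2 + y / 2 % 2 + z / 2 % 2) % 2) +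
    4 * ((x / 4 + 8 - y / 4 + z / 4) % 8)

/-- the class of a point in `ℤ/2 × ℤ/2 × ℤ/8` -/
def idx {D : ℕ} (x : Z (D + 3)) : ℕ :=
  (x 0 % 2).toNat + 2 * (x 1 % 2).toNat + 4 * (x 2 % 8).toNat

theorem idx_lt {D : ℕ} (x : Z (D + 3)) : idx x < 32 := by
  unfold idx; omega

theorem op_lt (x y z : ℕ) : op x y z < 32 := by
  unfold op; omega

theorem toNat_mod2 (a b c : ℤ) :
    ((a - b + c) % 2).toNat = ((a % 2).toNat + (b % 2).toNat + (c % 2).toNat) % 2 := by
  have h : (a - b + c) % 2 = (a % 2 + b % 2 + c % 2) % 2 := by omega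
  rw [h]
  have ha : a % 2 = 0 ∨ a % 2 = 1 := by omega
  have hb : b % 2 = 0 ∨ b % 2 = 1 := by omega
  have hc : c % 2 = 0 ∨ c % 2 = 1 := by omega
  rcases ha with ha | ha <;> rcases hb with hb | hb <;> rcases hc with hc | hc <;>
    rw [ha, hb, hc] <;> rfl

theorem toNat_mod8 (a b c : ℤ) :
    ((a - b + c) % 8).toNat = ((a % 8).toNat + 8 - (b % 8).toNat + (c % 8).toNat) % 8 := by
  have h : (a - b + c) % 8 = (a % 8 + 8 - b % 8 + c % 8) % 8 := by omega
  rw [h]
  have ha : 0 ≤ a % 8 ∧ a % 8 < 8 := by omega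
  have hb : 0 ≤ b % 8 ∧ b % 8 < 8 := by omega
  have hc : 0 ≤ c % 8 ∧ c % 8 < 8 := by omega
  obtain ⟨A, hA⟩ := Int.eq_ofNat_of_zero_le ha.1
  obtain ⟨B, hB⟩ := Int.eq_ofNat_of_zero_le hb.1
  obtain ⟨C, hC⟩ := Int.eq_ofNat_of_zero_le hc.1
  rw [hA] at ha ⊢
  rw [hB] at hb ⊢
  rw [hC] at hc ⊢
  simp only [Int.toNat_natCast]
  clear h hA hB hC
  have e : ((A : ℤ) + 8 - B + C) = ((A + 8 - B + C : ℕ) : ℤ) := by omega
  rw [e]
  norm_cast

theorem dec_idx (a b c : ℕ) (ha : a < 2) (hb : b < 2) :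
    (a + 2 * b + 4 * c) % 2 = a ∧ (a + 2 * b + 4 * c) / 2 % 2 = b ∧ (a + 2 * b + 4 * c) / 4 = c := by
  refine ⟨by omega, by omega, by omega⟩

theorem idx_op {D : ℕ} (x y z : Z (D + 3)) : idx (x - y + z) = op (idx x) (idx y) (idx z) := by
  have key : ∀ w : Z (D + 3), idx w % 2 = (w 0 % 2).toNat ∧ idx w / 2 % 2 = (w 1 % 2).toNat ∧
      idx w / 4 = (w 2 % 8).toNat := by
    intro w
    exact dec_idx _ _ _ (by omega) (by omega)
  obtain ⟨h1, h2, h3⟩ := key x
  obtain ⟨h1', h2', h3'⟩ := key y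
  obtain ⟨h1'', h2'', h3''⟩ := key z
  unfold op
  rw [h1, h2, h3, h1', h2', h3', h1'', h2'', h3'', ← toNat_mod2, ← toNat_mod2, ← toNat_mod8]
  rfl

/-- Two partitions of `ℤ/2 × ℤ/2 × ℤ/8` into `c + 2` cosets, both of them primitive, which have
the parts `0, ..., c - 1` in common and no other part. -/
structure IsCfg (c : ℕ) (f : Bool → ℕ → ℕ) : Prop where
  c_pos : 0 < c
  lt : ∀ κ n, n < 32 → f κ n < c + 2
  surj : ∀ κ i, i < c + 2 → ∃ n, n < 32 ∧ f κ n = i
  tc : ∀ κ x y z, x < 32 → y < 32 → z < 32 → f κ x = f κ y → f κ y = f κ z →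
    f κ (op x y z) = f κ x
  agree : ∀ n, n < 32 → f true n < c ∨ f false n < c → f true n = f false n
  distinct : ∀ i j, c ≤ i → i < c + 2 → c ≤ j → j < c + 2 →
    ∃ n, n < 32 ∧ ¬ (f true n = i ↔ f false n = j)
  prim : ∀ κ (I : Set ℕ), (∀ x y z, x < 32 → y < 32 → z < 32 → f κ x ∈ I → f κ y ∈ I → f κ z ∈ I →
    f κ (op x y z) ∈ I) → ∀ i j, i < c + 2 → j < c + 2 → i ≠ j → i ∈ I → j ∈ I →
    ∀ l, l < c + 2 → l ∈ I

variable {c : ℕ} {f : Bool → ℕ → ℕ}

theorem IsCfg.agree' (h : IsCfg c f) (κ κ' : Bool) (n : ℕ) (hn : n < 32) (hc : f κ n < c) :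
    f κ' n = f κ n := by
  have := h.agree n hn
  cases κ <;> cases κ' <;> simp_all

theorem IsCfg.distinct' (h : IsCfg c f) (κ κ' : Bool) (hκ : κ ≠ κ') (i j : ℕ) (hi : c ≤ i)
    (hi' : i < c + 2) (hj : c ≤ j) (hj' : j < c + 2) (H : ∀ n, n < 32 → (f κ n = i ↔ f κ' n = j)) :
    False := by
  cases κ <;> cases κ'
  · exact hκ rfl
  · obtain ⟨n, hn, h1⟩ := h.distinct j i hj hj' hi hi'
    exact h1 (H n hn).symm
  · obtain ⟨n, hn, h1⟩ := h.distinct i j hi hi' hj hj'
    exact h1 (H n hn)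
  · exact hκ rfl

/-- the colour of a level -/
def col (t : ℕ) : Bool := decide (t % 2 = 1)

theorem col_eq_iff (s t : ℕ) : col s = col t ↔ s % 2 = t % 2 := by
  unfold col
  have h1 : s % 2 = 0 ∨ s % 2 = 1 := by omega
  have h2 : t % 2 = 0 ∨ t % 2 = 1 := by omega
  rcases h1 with h1 | h1 <;> rcases h2 with h2 | h2 <;> simp [h1, h2]

/-- the labelling -/
def lab (f : Bool → ℕ → ℕ) (c k : ℕ) {D : ℕ} (x : Z (D + 3)) : ℕ × ℕ :=
  (f (col (lev k (x 2))) (idx x), if f (col (lev k (x 2))) (idx x) < c then 0 else lev k (x 2))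

theorem val_two' {D : ℕ} : ((2 : Fin (D + 3)) : ℕ) = 2 := by
  show 2 % (D + 3) = 2
  exact Nat.mod_eq_of_lt (by omega)

theorem two_ne_zero' {D : ℕ} : (2 : Fin (D + 3)) ≠ 0 := by
  intro h
  have := congrArg Fin.val h
  rw [val_two', Fin.val_zero] at this
  omega

theorem two_ne_one' {D : ℕ} : (2 : Fin (D + 3)) ≠ 1 := by
  intro h
  have := congrArg Fin.val h
  rw [val_two', Fin.val_one] at this
  omega

theorem idx_fin (g : ℕ) (hg : g < 32) (m : ℤ) :
    ((((g % 2 : ℕ) : ℤ)) % 2).toNat + 2 * ((((g / 2 % 2 : ℕ) : ℤ)) % 2).toNat +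
      4 * ((((g / 4 : ℕ) : ℤ) + 8 * m) % 8).toNat = g := by
  have h1 : (((g / 4 : ℕ) : ℤ) + 8 * m) % 8 = ((g / 4 : ℕ) : ℤ) := by omega
  have h2 : ((((g % 2 : ℕ) : ℤ)) % 2) = ((g % 2 : ℕ) : ℤ) := by omega
  have h3 : ((((g / 2 % 2 : ℕ) : ℤ)) % 2) = ((g / 2 % 2 : ℕ) : ℤ) := by omega
  rw [h1, h2, h3]
  simp only [Int.toNat_natCast]
  omega

/-- all pairs of a class and a level are realised -/
theorem realize {D : ℕ} (k : ℕ) (g : ℕ) (hg : g < 32) (t : ℤ) :
    ∃ x : Z (D + 3), idx x = g ∧ (3 ^ k : ℤ) ∣ x 2 - t := by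
  have hco : IsCoprime (8 : ℤ) (3 ^ k) := by
    apply IsCoprime.pow_right
    exact ⟨-1, 3, by norm_num⟩
  obtain ⟨u, v, huv⟩ := hco
  have e1 : (1 : Fin (D + 3)) ≠ 0 := by
    intro h; exact absurd (congrArg Fin.val h) (by simp)
  let x : Z (D + 3) := fun i => if i = 0 then ((g % 2 : ℕ) : ℤ) else
    if i = 1 then ((g / 2 % 2 : ℕ) : ℤ) else ((g / 4 : ℕ) : ℤ) * (v * 3 ^ k) + t * (u * 8)
  have x0 : x 0 = ((g % 2 : ℕ) : ℤ) := if_pos rfl
  have x1 : x 1 = ((g / 2 % 2 : ℕ) : ℤ) := (if_neg e1).trans (if_pos rfl)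
  have x2 : x 2 = ((g / 4 : ℕ) : ℤ) * (v * 3 ^ k) + t * (u * 8) :=
    (if_neg two_ne_zero').trans (if_neg two_ne_one')
  refine ⟨x, ?_, ?_⟩
  · have h8 : ((g / 4 : ℕ) : ℤ) * (v * 3 ^ k) + t * (u * 8) =
        ((g / 4 : ℕ) : ℤ) + 8 * (t * u - ((g / 4 : ℕ) : ℤ) * u) := by
      have : v * 3 ^ k = 1 - u * 8 := by linarith
      rw [this]; ring
    unfold idx
    rw [x0, x1, x2, h8]
    exact idx_fin g hg _
  · rw [x2]
    refine ⟨((g / 4 : ℕ) : ℤ) * v - t * v, ?_⟩
    have : u * 8 = 1 - v * 3 ^ k := by linarith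
    rw [this]; ring

theorem tc_mul {A : Type} [AddCommGroup A] (U : Set A) (hU : TC U) (x y : A) (hx : x ∈ U)
    (hy : y ∈ U) (N : ℤ) : x + N • (y - x) ∈ U := by
  induction N using Int.induction_on with
  | zero => simpa using hx
  | succ n ih =>
    have := hU _ ih _ hx _ hy
    have e : x + (n : ℤ) • (y - x) - x + y = x + ((n : ℤ) + 1) • (y - x) := by
      rw [add_smul, one_smul]; abel
    rwa [e] at this
  | pred n ih =>
    have := hU _ ih _ hy _ hx
    have e : x + (-(n : ℤ)) • (y - x) - y + x = x + (-(n : ℤ) - 1) • (y - x) := by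
      rw [sub_smul, one_smul]; abel
    rwa [e] at this

theorem idx_congr {D : ℕ} (x y : Z (D + 3)) (h : ∀ i, (8 : ℤ) ∣ y i - x i) : idx x = idx y := by
  unfold idx
  have h0 := h 0
  have h1 := h 1
  have h2 := h 2
  omega

theorem lev_congr {D : ℕ} (k : ℕ) (x y : Z (D + 3)) (t : ℤ) (hx : (3 ^ k : ℤ) ∣ x 2 - t)
    (hy : (3 ^ k : ℤ) ∣ y 2 - t) : lev k (x 2) = lev k (y 2) := by
  apply lev_per
  have := dvd_sub hy hx
  have e : y 2 - t - (x 2 - t) = y 2 - x 2 := by ring
  rwa [e] at this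

/-- The product structure: if `x, y ∈ U` then all points with the class of `x` and the level of `y`
are in `U`. -/
theorem prod_mem {D : ℕ} {k : ℕ} (U : Set (Z (D + 3))) (hU : TC U)
    (hsat : ∀ x y, lab f c k x = lab f c k y → x ∈ U → y ∈ U) (x y z : Z (D + 3)) (hx : x ∈ U)
    (hy : y ∈ U) (h1 : idx z = idx x) (h2 : lev k (z 2) = lev k (y 2)) : z ∈ U := by
  have hco : IsCoprime (8 : ℤ) (3 ^ k) := by
    apply IsCoprime.pow_right
    exact ⟨-1, 3, by norm_num⟩
  obtain ⟨u, v, huv⟩ := hco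
  have hm := tc_mul U hU x y hx hy (u * 8)
  refine hsat _ _ ?_ hm
  have e1 : idx (x + (u * 8) • (y - x)) = idx x := by
    symm
    apply idx_congr
    intro i
    refine ⟨u * (y i - x i), ?_⟩
    simp only [Pi.add_apply, Pi.smul_apply, Pi.sub_apply, smul_eq_mul]
    ring
  have e2 : lev k ((x + (u * 8) • (y - x)) 2) = lev k (y 2) := by
    apply lev_per
    refine ⟨v * (y 2 - x 2), ?_⟩
    simp only [Pi.add_apply, Pi.smul_apply, Pi.sub_apply, smul_eq_mul]
    have : u * 8 = 1 - v * 3 ^ k := by linarith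
    rw [this]; ring
  unfold lab
  rw [e1, e2, h1, h2]

theorem prim_lab (h : IsCfg c f) {D : ℕ} (k : ℕ) (U : Set (Z (D + 3))) (hU : TC U)
    (hsat : ∀ x y, lab f c k x = lab f c k y → x ∈ U → y ∈ U)
    (hne : ∃ x ∈ U, ∃ y ∈ U, lab f c k x ≠ lab f c k y) : ∀ z, z ∈ U := by
  classical
  -- the labels which occur in the layer of `x`
  have hI : ∀ x ∈ U, ∀ i j, i < c + 2 → j < c + 2 → i ≠ j →
      (∃ y ∈ U, lev k (y 2) = lev k (x 2) ∧ f (col (lev k (x 2))) (idx y) = i) →
      (∃ y ∈ U, lev k (y 2) = lev k (x 2) ∧ f (col (lev k (x 2))) (idx y) = j) →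
      ∀ l, l < c + 2 → ∃ y ∈ U, lev k (y 2) = lev k (x 2) ∧ f (col (lev k (x 2))) (idx y) = l := by
    intro x hx i j hi hj hij h1 h2 l hl
    refine h.prim (col (lev k (x 2)))
      {i | ∃ y ∈ U, lev k (y 2) = lev k (x 2) ∧ f (col (lev k (x 2))) (idx y) = i} ?_ i j hi hj hij
      h1 h2 l hl
    intro a b d ha hb hd h3 h4 h5
    have get : ∀ a, a < 32 →
        f (col (lev k (x 2))) a ∈ {i | ∃ y ∈ U, lev k (y 2) = lev k (x 2) ∧
          f (col (lev k (x 2))) (idx y) = i} →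
        ∃ z ∈ U, idx z = a ∧ (3 ^ k : ℤ) ∣ z 2 - x 2 := by
      rintro a ha ⟨y, hy, hy1, hy2⟩
      obtain ⟨z, hz1, hz2⟩ := realize (D := D) k a ha (x 2)
      refine ⟨z, hsat _ _ ?_ hy, hz1, hz2⟩
      have hz3 : lev k (z 2) = lev k (x 2) := lev_congr k z x (x 2) hz2 (by simp)
      unfold lab
      rw [hz1, hz3, hy1, hy2]
    obtain ⟨p, hp, hp1, hp2⟩ := get a ha h3
    obtain ⟨q, hq, hq1, hq2⟩ := get b hb h4
    obtain ⟨r, hr, hr1, hr2⟩ := get d hd h5
    refine ⟨p - q + r, hU _ hp _ hq _ hr, ?_, ?_⟩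
    · apply lev_congr k _ x (x 2) _ (by simp)
      have e : (p - q + r) 2 - x 2 = (p 2 - x 2) - (q 2 - x 2) + (r 2 - x 2) := by
        simp only [Pi.add_apply, Pi.sub_apply]; ring
      rw [e]
      exact dvd_add (dvd_sub hp2 hq2) hr2
    · rw [idx_op, hp1, hq1, hr1]
  by_cases hall : ∃ x ∈ U, ∀ l, l < c + 2 →
      ∃ y ∈ U, lev k (y 2) = lev k (x 2) ∧ f (col (lev k (x 2))) (idx y) = l
  · -- a whole layer is in `U`
    obtain ⟨x, hx, hxl⟩ := hall
    have hlayer : ∀ z : Z (D + 3), lev k (z 2) = lev k (x 2) → z ∈ U := by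
      intro z hz
      obtain ⟨y, hy, hy1, hy2⟩ := hxl (f (col (lev k (x 2))) (idx z)) (h.lt _ _ (idx_lt z))
      refine hsat y z ?_ hy
      unfold lab
      rw [hy1, hz, hy2]
    intro z
    obtain ⟨y, hy, hy1, hy2⟩ := hxl 0 (by omega)
    have hc := h.c_pos
    -- a point of `U` in the layer of `z`
    obtain ⟨u, hu1, hu2⟩ := realize (D := D) k (idx y) (idx_lt y) (z 2)
    have hu3 : lev k (u 2) = lev k (z 2) := lev_congr k u z (z 2) hu2 (by simp)
    have huU : u ∈ U := by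
      refine hsat y u ?_ hy
      have h1 : f (col (lev k (u 2))) (idx u) = 0 := by
        rw [hu1, h.agree' (col (lev k (x 2))) _ _ (idx_lt y) (by rw [hy2]; exact hc), hy2]
      have h2 : f (col (lev k (y 2))) (idx y) = 0 := by rw [hy1, hy2]
      unfold lab
      rw [h1, h2, if_pos hc, if_pos hc]
    obtain ⟨w, hw1, hw2⟩ := realize (D := D) k (idx z) (idx_lt z) (x 2)
    have hw3 : lev k (w 2) = lev k (x 2) := lev_congr k w x (x 2) hw2 (by simp)
    exact prod_mem U hU hsat w u z (hlayer w hw3) huU hw1.symm hu3.symm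
  · -- every layer meets `U` in one cell
    exfalso
    have hone : ∀ x ∈ U, ∀ y ∈ U, lev k (y 2) = lev k (x 2) →
        f (col (lev k (x 2))) (idx y) = f (col (lev k (x 2))) (idx x) := by
      intro x hx y hy hyx
      by_contra hne'
      exact hall ⟨x, hx, hI x hx _ _ (h.lt _ _ (idx_lt y)) (h.lt _ _ (idx_lt x)) hne'
        ⟨y, hy, hyx, rfl⟩ ⟨x, hx, rfl, rfl⟩⟩
    have hcell : ∀ x ∈ U, ∀ y ∈ U, ∀ a, a < 32 →
        f (col (lev k (x 2))) a = f (col (lev k (x 2))) (idx x) →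
        f (col (lev k (y 2))) a = f (col (lev k (y 2))) (idx y) := by
      intro x hx y hy a ha hax
      obtain ⟨z, hz1, hz2⟩ := realize (D := D) k a ha (x 2)
      have hz3 : lev k (z 2) = lev k (x 2) := lev_congr k z x (x 2) hz2 (by simp)
      have hzU : z ∈ U := by
        refine hsat x z ?_ hx
        unfold lab
        rw [hz3, hz1, hax]
      obtain ⟨w, hw1, hw2⟩ := realize (D := D) k a ha (y 2)
      have hw3 : lev k (w 2) = lev k (y 2) := lev_congr k w y (y 2) hw2 (by simp)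
      have hwU : w ∈ U := prod_mem U hU hsat z y w hzU hy (by rw [hw1, hz1]) hw3
      have := hone y hy w hwU hw3
      rwa [hw1] at this
    -- two points of `U` in layers of different colours
    have hdiff : ∀ x ∈ U, ∀ y ∈ U, c ≤ f (col (lev k (x 2))) (idx x) →
        col (lev k (x 2)) = col (lev k (y 2)) := by
      intro x hx y hy hcx
      by_contra hκ
      have hcy : c ≤ f (col (lev k (y 2))) (idx y) := by
        by_contra hlt
        have h1 := h.agree' (col (lev k (y 2))) (col (lev k (x 2))) (idx y) (idx_lt y) (by omega)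
        have h2 := hcell y hy x hx (idx y) (idx_lt y) rfl
        omega
      exact h.distinct' _ _ hκ _ _ hcx (h.lt _ _ (idx_lt x)) hcy (h.lt _ _ (idx_lt y))
        fun a ha => ⟨hcell x hx y hy a ha, hcell y hy x hx a ha⟩
    obtain ⟨x, hx, y, hy, hxy⟩ := hne
    have hcx : c ≤ f (col (lev k (x 2))) (idx x) := by
      by_contra hlt
      apply hxy
      have h1 := h.agree' (col (lev k (x 2))) (col (lev k (y 2))) (idx x) (idx_lt x) (by omega)
      have h2 := hcell x hx y hy (idx x) (idx_lt x) rfl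
      unfold lab
      rw [← h2, h1, if_pos (by omega), if_pos (by omega)]
    have hκ := hdiff x hx y hy hcx
    have hfx : f (col (lev k (y 2))) (idx y) = f (col (lev k (x 2))) (idx x) := by
      have := hcell x hx y hy (idx x) (idx_lt x) rfl
      rw [← this, hκ]
    have hlev : lev k (x 2) ≠ lev k (y 2) := by
      intro he
      apply hxy
      unfold lab
      rw [hfx, he]
    rcases lev_par k (x 2) (y 2) hlev ((col_eq_iff _ _).1 hκ) with h1 | h1
    · apply h1
      have := hdiff x hx (y - x + y) (hU _ hy _ hx _ hy) hcx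
      exact ((col_eq_iff _ _).1 this).symm
    · apply h1
      have := hdiff x hx (x - y + x) (hU _ hx _ hy _ hx) hcx
      exact ((col_eq_iff _ _).1 this).symm

theorem tc_lab (h : IsCfg c f) {D : ℕ} (k : ℕ) (a : ℕ × ℕ) :
    TC {x : Z (D + 3) | lab f c k x = a} := by
  rintro x hx y hy z hz
  have hx' : lab f c k x = a := hx
  have hxy : lab f c k x = lab f c k y := hx'.trans (Eq.symm hy)
  have hxz : lab f c k x = lab f c k z := hx'.trans (Eq.symm hz)
  show lab f c k (x - y + z) = a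
  rw [← hx']
  have a1 := congrArg Prod.fst hxy
  have a2 := congrArg Prod.snd hxy
  have b1 := congrArg Prod.fst hxz
  have b2 := congrArg Prod.snd hxz
  simp only [lab] at a1 a2 b1 b2
  by_cases hc : f (col (lev k (x 2))) (idx x) < c
  · -- a common cell
    have key : ∀ w : Z (D + 3), f (col (lev k (w 2))) (idx w) = f (col (lev k (x 2))) (idx x) →
        f true (idx w) = f (col (lev k (x 2))) (idx x) := by
      intro w hw
      rw [h.agree' (col (lev k (w 2))) true (idx w) (idx_lt w) (by omega), hw]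
    have t1 := key x rfl
    have t2 := key y a1.symm
    have t3 := key z b1.symm
    have t4 := h.tc true _ _ _ (idx_lt x) (idx_lt y) (idx_lt z) (t1.trans t2.symm) (t2.trans t3.symm)
    rw [← idx_op] at t4
    have t5 := h.agree' true (col (lev k ((x - y + z) 2))) (idx (x - y + z)) (idx_lt _) (by omega)
    unfold lab
    rw [t5, t4, t1, if_pos hc, if_pos hc]
  · rw [if_neg hc, if_neg (by omega)] at a2 b2
    have hl : lev k ((x - y + z) 2) = lev k (x 2) := lev_tc k _ _ _ a2 (a2.symm.trans b2)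
    rw [← a2] at a1
    rw [← b2] at b1
    have := h.tc (col (lev k (x 2))) _ _ _ (idx_lt x) (idx_lt y) (idx_lt z) a1 (a1.symm.trans b1)
    rw [← idx_op] at this
    unfold lab
    rw [hl, this]

/-- **Layered tilings.** -/
theorem hasPrimitive_of_cfg (h : IsCfg c f) (D k : ℕ) :
    HasPrimitive (D + 3) (c + 2 * (2 * k + 1)) := by
  classical
  refine of_label (lab f c k)
    ((Finset.range c ×ˢ Finset.range 1) ∪
      (Finset.Ico c (c + 2) ×ˢ Finset.range (2 * k + 1))) ?_ ?_ (8 * 3 ^ k) (by positivity) ?_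
    (tc_lab h k) (prim_lab h k)
  · rintro ⟨i, t⟩
    simp only [Finset.mem_union, Finset.mem_range, Finset.mem_product, Finset.mem_Ico]
    constructor
    · rintro (⟨hj, h0⟩ | ⟨⟨h1, h2⟩, h3⟩)
      · obtain rfl : t = 0 := by omega
        obtain ⟨n, hn, hf⟩ := h.surj (col (lev k 0)) i (by omega)
        obtain ⟨x, hx1, hx2⟩ := realize (D := D) k n hn 0
        refine ⟨x, ?_⟩
        have : lev k (x 2) = lev k 0 := by
          apply lev_per
          rwa [← dvd_neg, neg_sub]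
        unfold lab
        rw [this, hx1, hf, if_pos hj]
      · obtain ⟨s, hs⟩ := lev_surj k t h3
        obtain ⟨n, hn, hf⟩ := h.surj (col t) i h2
        obtain ⟨x, hx1, hx2⟩ := realize (D := D) k n hn s
        refine ⟨x, ?_⟩
        have : lev k (x 2) = lev k s := by
          apply lev_per
          rwa [← dvd_neg, neg_sub]
        unfold lab
        rw [this, hs, hx1, hf, if_neg (by omega)]
    · rintro ⟨x, hx⟩
      have h1 := congrArg Prod.fst hx
      have h2 := congrArg Prod.snd hx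
      simp only [lab] at h1 h2
      have h3 := h.lt (col (lev k (x 2))) (idx x) (idx_lt x)
      by_cases hc : f (col (lev k (x 2))) (idx x) < c
      · left
        rw [if_pos hc] at h2
        exact ⟨by omega, by omega⟩
      · right
        rw [if_neg hc] at h2
        refine ⟨⟨by omega, by omega⟩, ?_⟩
        rw [← h2]; exact lev_lt k _
  · rw [Finset.card_union_of_disjoint, Finset.card_product, Finset.card_product,
      Finset.card_range, Finset.card_range, Nat.card_Ico, Finset.card_range,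
      show c + 2 - c = 2 by omega]
    · omega
    · rw [Finset.disjoint_left]
      rintro ⟨i, t⟩ h1 h2
      simp only [Finset.mem_range, Finset.mem_product, Finset.mem_Ico] at h1 h2
      omega
  · intro x y hxy
    have h1 : idx x = idx y := by
      apply idx_congr
      intro i
      refine dvd_trans ?_ (hxy i)
      push_cast
      exact Dvd.intro _ rfl
    have h2 : lev k (x 2) = lev k (y 2) := by
      apply lev_per
      refine dvd_trans ?_ (hxy 2)
      push_cast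
      exact Dvd.intro_left _ rfl
    unfold lab
    rw [h1, h2]

end Pool.Agent.KS6_67.LT
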