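import Pool.Agent.KS6_67.LT.Cfg
import Pool.Agent.KS6_67.LT.Four

/-!
# All numbers of tiles in all dimensions at least three
-/

set_option autoImplicit false

namespace Pool.Agent.KS6_67.LT

theorem hasPrimitive_one (D : ℕ) : HasPrimitive (D + 3) 1 := by
  classical
  refine of_label (fun _ => ()) {()} (fun a => ?_) rfl 1 one_pos (fun _ _ _ => rfl)
    (fun a x _ y _ z _ => rfl) ?_
  · simp
  · rintro U _ _ ⟨x, _, y, _, h⟩
    exact absurd rfl h

theorem hasPrimitive_prime (D p : ℕ) (hp : p.Prime) : HasPrimitive (D + 3) p := by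
  classical
  have : Fact p.Prime := ⟨hp⟩
  refine of_label (fun x => ((x 0 : ℤ) : ZMod p)) Finset.univ (fun a => ?_) ?_ p hp.pos ?_ ?_ ?_
  · simp only [Finset.mem_univ, true_iff]
    obtain ⟨t, ht⟩ := ZMod.intCast_surjective a
    exact ⟨fun _ => t, ht⟩
  · rw [Finset.card_univ, ZMod.card]
  · intro x y h
    exact (ZMod.intCast_eq_intCast_iff_dvd_sub _ _ p).2 (h 0)
  · intro a x hx y hy z hz
    have hx' : ((x 0 : ℤ) : ZMod p) = a := hx
    have hy' : ((y 0 : ℤ) : ZMod p) = a := hy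
    have hz' : ((z 0 : ℤ) : ZMod p) = a := hz
    show (((x - y + z) 0 : ℤ) : ZMod p) = a
    simp only [Pi.add_apply, Pi.sub_apply, Int.cast_add, Int.cast_sub, hx', hy', hz']
    ring
  · rintro U hU hsat ⟨x, hx, y, hy, hxy⟩ z
    -- `x + N (y - x)` has the label of `z`
    have hne : ((y 0 : ℤ) : ZMod p) - ((x 0 : ℤ) : ZMod p) ≠ 0 := fun h => hxy (sub_eq_zero.1 h).symm
    obtain ⟨N, hN⟩ := ZMod.intCast_surjective
      ((((z 0 : ℤ) : ZMod p) - ((x 0 : ℤ) : ZMod p)) / (((y 0 : ℤ) : ZMod p) - ((x 0 : ℤ) : ZMod p)))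
    refine hsat (x + N • (y - x)) z ?_ (tc_mul U hU x y hx hy N)
    show (((x + N • (y - x)) 0 : ℤ) : ZMod p) = ((z 0 : ℤ) : ZMod p)
    simp only [Pi.add_apply, Pi.smul_apply, Pi.sub_apply, smul_eq_mul, Int.cast_add, Int.cast_mul,
      Int.cast_sub, hN]
    rw [div_mul_cancel₀ _ hne]
    ring

/-- In every dimension at least three all numbers of tiles occur. -/
theorem hasPrimitive_all (D n : ℕ) (hn : 1 ≤ n) : HasPrimitive (D + 3) n := by
  have h4 : n % 4 = 0 ∨ n % 4 = 1 ∨ n % 4 = 2 ∨ n % 4 = 3 := by omega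
  rcases h4 with h | h | h | h
  · have := hasPrimitive_of_cfg isCfg_A D ((n - 4) / 4)
    have e : 2 + 2 * (2 * ((n - 4) / 4) + 1) = n := by omega
    rwa [e] at this
  · by_cases h1 : n = 1
    · rw [h1]; exact hasPrimitive_one D
    · by_cases h5 : n = 5
      · rw [h5]; exact hasPrimitive_prime D 5 (by norm_num)
      · have := hasPrimitive_of_cfg isCfg_D D ((n - 9) / 4)
        have e : 7 + 2 * (2 * ((n - 9) / 4) + 1) = n := by omega
        rwa [e] at this
  · by_cases h2 : n = 2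
    · rw [h2]; exact hasPrimitive_prime D 2 (by norm_num)
    · have := hasPrimitive_of_cfg isCfg_B D ((n - 6) / 4)
      have e : 4 + 2 * (2 * ((n - 6) / 4) + 1) = n := by omega
      rwa [e] at this
  · by_cases h3 : n = 3
    · rw [h3]; exact hasPrimitive_prime D 3 (by norm_num)
    · have := hasPrimitive_of_cfg isCfg_C D ((n - 7) / 4)
      have e : 5 + 2 * (2 * ((n - 7) / 4) + 1) = n := by omega
      rwa [e] at this

end Pool.Agent.KS6_67.LT
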